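import Pool.Agent.H681.MD.Stm

/-!
# The Rademacher-Menshov inequality from an operator bound
-/

set_option autoImplicit false

namespace Pool.Agent.H663.MD

open MeasureTheory Set Filter Complex
open scoped ENNReal

noncomputable section

variable {Ω ι : Type}

/-- the partial sum -/
def ps (F : Finset ι) (h : ι → ℂ) (q : ι → ℕ) (x : ℕ) : ℂ := ∑ i ∈ F.filter (fun i => q i < x), h i

/-- the sum over a block of level `l` -/
def bs (F : Finset ι) (h : ι → ℂ) (q : ι → ℕ) (l b : ℕ) : ℂ :=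
  ∑ i ∈ F.filter (fun i => q i / 2 ^ l = b), h i

/-- partial sum at level `l` -/
def ts (F : Finset ι) (h : ι → ℂ) (q : ι → ℕ) (x l : ℕ) : ℂ :=
  ∑ i ∈ F.filter (fun i => q i / 2 ^ l < x / 2 ^ l), h i

theorem aux1 (Q X : ℕ) (hX : X % 2 = 1) : Q < X ↔ (Q / 2 < X / 2 ∨ Q = X - 1) := by omega
theorem aux2 (Q X : ℕ) (hX : ¬ X % 2 = 1) : Q < X ↔ Q / 2 < X / 2 := by omega
theorem aux3 (Q X : ℕ) (hX : X % 2 = 1) (h : Q / 2 < X / 2) : ¬ Q = X - 1 := by omega

theorem ts_step (F : Finset ι) (h : ι → ℂ) (q : ι → ℕ) (x l : ℕ) :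
    ts F h q x l = ts F h q x (l + 1) +
      (if (x / 2 ^ l) % 2 = 1 then bs F h q l (x / 2 ^ l - 1) else 0) := by
  classical
  unfold ts bs
  have hd : ∀ n : ℕ, n / 2 ^ (l + 1) = n / 2 ^ l / 2 := fun n => by
    rw [pow_succ, Nat.div_div_eq_div_mul]
  simp only [hd]
  generalize x / 2 ^ l = X
  split_ifs with hX
  · rw [← Finset.sum_union]
    · apply Finset.sum_congr _ (fun _ _ => rfl)
      ext i
      simp only [Finset.mem_filter, Finset.mem_union]
      rw [aux1 (q i / 2 ^ l) X hX]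
      tauto
    · rw [Finset.disjoint_filter]
      intro i _ h1
      exact aux3 _ _ hX h1
  · rw [add_zero]
    apply Finset.sum_congr _ (fun _ _ => rfl)
    ext i
    simp only [Finset.mem_filter]
    rw [aux2 (q i / 2 ^ l) X hX]

/-- the total square of a level -/
def lv (F : Finset ι) (h : ι → ℂ) (q : ι → ℕ) (L l : ℕ) : ℝ :=
  ∑ b ∈ Finset.range (2 ^ L), ‖bs F h q l b‖ ^ 2

theorem bs_le (F : Finset ι) (h : ι → ℂ) (q : ι → ℕ) (L l b : ℕ) (hq : ∀ i ∈ F, q i < 2 ^ L) :
    ‖bs F h q l b‖ ^ 2 ≤ lv F h q L l := by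
  by_cases hb : b < 2 ^ L
  · exact Finset.single_le_sum (f := fun b => ‖bs F h q l b‖ ^ 2) (fun _ _ => by positivity)
      (Finset.mem_range.2 hb)
  · have h1 : bs F h q l b = 0 := by
      unfold bs
      rw [Finset.filter_false_of_mem, Finset.sum_empty]
      intro i hi h2
      have h3 := hq i hi
      have h4 : q i / 2 ^ l ≤ q i := Nat.div_le_self _ _
      omega
    rw [h1]
    simp only [norm_zero]
    have : 0 ≤ lv F h q L l := Finset.sum_nonneg (fun _ _ => by positivity)
    simpa using this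

theorem ts_sum (F : Finset ι) (h : ι → ℂ) (q : ι → ℕ) (x L : ℕ) :
    ps F h q x = ∑ l ∈ Finset.range L,
      (if (x / 2 ^ l) % 2 = 1 then bs F h q l (x / 2 ^ l - 1) else 0) + ts F h q x L := by
  induction L with
  | zero => simp [ps, ts]
  | succ n ih =>
    rw [ih, Finset.sum_range_succ, ts_step F h q x n]
    ring

theorem pointwise (F : Finset ι) (h : ι → ℂ) (q : ι → ℕ) (x L : ℕ) (hq : ∀ i ∈ F, q i < 2 ^ L) :
    ‖ps F h q x‖ ^ 2 ≤ ((L : ℝ) + 1) * ∑ l ∈ Finset.range (L + 1), lv F h q L l := by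
  set D : ℕ → ℂ := fun l => if l < L then
    (if (x / 2 ^ l) % 2 = 1 then bs F h q l (x / 2 ^ l - 1) else 0) else ts F h q x L with hD
  have h1 : ps F h q x = ∑ l ∈ Finset.range (L + 1), D l := by
    rw [ts_sum F h q x L, Finset.sum_range_succ]
    congr 1
    · apply Finset.sum_congr rfl
      intro l hl
      simp [hD, Finset.mem_range.1 hl]
    · simp [hD]
  have hlv : ∀ l, 0 ≤ lv F h q L l := fun l => Finset.sum_nonneg (fun _ _ => by positivity)
  have h2 : ∀ l ∈ Finset.range (L + 1), ‖D l‖ ^ 2 ≤ lv F h q L l := by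
    intro l hl
    have hl' : l < L + 1 := Finset.mem_range.1 hl
    simp only [hD]
    split_ifs with h3 h4
    · exact bs_le F h q L l _ hq
    · simpa using hlv l
    · have h5 : l = L := by omega
      subst h5
      by_cases h6 : x / 2 ^ l = 0
      · have h7 : ts F h q x l = 0 := by
          unfold ts
          rw [Finset.filter_false_of_mem, Finset.sum_empty]
          intro i _ h8
          rw [h6] at h8
          exact absurd h8 (Nat.not_lt_zero _)
        rw [h7]
        simpa using hlv l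
      · have h7 : ts F h q x l = bs F h q l 0 := by
          unfold ts bs
          apply Finset.sum_congr _ (fun _ _ => rfl)
          apply Finset.filter_congr
          intro i hi
          have h8 : q i / 2 ^ l = 0 := Nat.div_eq_of_lt (hq i hi)
          rw [h8]
          constructor
          · intro _; rfl
          · intro _; exact Nat.pos_of_ne_zero h6
        rw [h7]
        exact bs_le F h q l l 0 hq
  rw [h1]
  calc ‖∑ l ∈ Finset.range (L + 1), D l‖ ^ 2 ≤ (∑ l ∈ Finset.range (L + 1), ‖D l‖) ^ 2 := by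
        apply pow_le_pow_left₀ (norm_nonneg _)
        exact norm_sum_le _ _
    _ ≤ (Finset.range (L + 1)).card * ∑ l ∈ Finset.range (L + 1), ‖D l‖ ^ 2 :=
        sq_sum_le_card_mul_sum_sq
    _ = ((L : ℝ) + 1) * ∑ l ∈ Finset.range (L + 1), ‖D l‖ ^ 2 := by
        rw [Finset.card_range]; push_cast; ring
    _ ≤ _ := by
        apply mul_le_mul_of_nonneg_left (Finset.sum_le_sum h2)
        positivity

theorem rm_core [MeasurableSpace Ω] (μ : Measure Ω) (F : Finset ι)
    (g : ι → Ω → ℂ) (q : ι → ℕ) (L : ℕ) (K : ℝ) (hg : ∀ i, Measurable (g i))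
    (hq : ∀ i ∈ F, q i < 2 ^ L) (hK : 0 ≤ K)
    (hyp : ∀ c : ι → ℂ, ∫⁻ ω, ENNReal.ofReal (‖∑ i ∈ F, c i * g i ω‖ ^ 2) ∂μ ≤
      ENNReal.ofReal (K * ∑ i ∈ F, ‖c i‖ ^ 2)) (c : ι → ℂ) :
    ∫⁻ ω, (⨆ x : ℕ, ENNReal.ofReal (‖∑ i ∈ F.filter (fun i => q i < x), c i * g i ω‖ ^ 2)) ∂μ ≤
      ENNReal.ofReal (((L : ℝ) + 1) ^ 2 * K * ∑ i ∈ F, ‖c i‖ ^ 2) := by
  classical
  set S : ℝ := ∑ i ∈ F, ‖c i‖ ^ 2 with hS
  have hS0 : 0 ≤ S := Finset.sum_nonneg (fun _ _ => by positivity)
  -- one block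
  have hblk : ∀ l b : ℕ, ∫⁻ ω, ENNReal.ofReal (‖bs F (fun i => c i * g i ω) q l b‖ ^ 2) ∂μ ≤
      ENNReal.ofReal (K * ∑ i ∈ F.filter (fun i => q i / 2 ^ l = b), ‖c i‖ ^ 2) := by
    intro l b
    have h1 := hyp (fun i => if q i / 2 ^ l = b then c i else 0)
    have h2 : ∀ ω, ∑ i ∈ F, (if q i / 2 ^ l = b then c i else 0) * g i ω =
        bs F (fun i => c i * g i ω) q l b := by
      intro ω
      unfold bs
      rw [Finset.sum_filter]
      apply Finset.sum_congr rfl
      intro i _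
      split_ifs <;> simp
    have h3 : ∑ i ∈ F, ‖(if q i / 2 ^ l = b then c i else 0)‖ ^ 2 =
        ∑ i ∈ F.filter (fun i => q i / 2 ^ l = b), ‖c i‖ ^ 2 := by
      rw [Finset.sum_filter]
      apply Finset.sum_congr rfl
      intro i _
      split_ifs <;> simp
    simp only [h2, h3] at h1
    exact h1
  have hmb : ∀ l b : ℕ, Measurable
      (fun ω => ENNReal.ofReal (‖bs F (fun i => c i * g i ω) q l b‖ ^ 2)) := by
    intro l b
    apply Measurable.ennreal_ofReal
    apply Measurable.pow_const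
    apply Measurable.norm
    unfold bs
    apply Finset.measurable_sum
    intro i _
    exact (hg i).const_mul (c i)
  have hlev : ∀ l : ℕ, ∑ b ∈ Finset.range (2 ^ L),
      ∑ i ∈ F.filter (fun i => q i / 2 ^ l = b), ‖c i‖ ^ 2 = S := by
    intro l
    rw [hS]
    apply Finset.sum_fiberwise_of_maps_to
    intro i hi
    rw [Finset.mem_range]
    exact lt_of_le_of_lt (Nat.div_le_self _ _) (hq i hi)
  have hlI : ∀ l : ℕ, ∫⁻ ω, ∑ b ∈ Finset.range (2 ^ L),
      ENNReal.ofReal (‖bs F (fun i => c i * g i ω) q l b‖ ^ 2) ∂μ ≤ ENNReal.ofReal (K * S) := by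
    intro l
    rw [lintegral_finsetSum _ (fun b _ => hmb l b)]
    calc ∑ b ∈ Finset.range (2 ^ L), ∫⁻ ω, ENNReal.ofReal (‖bs F (fun i => c i * g i ω) q l b‖ ^ 2) ∂μ
        ≤ ∑ b ∈ Finset.range (2 ^ L),
          ENNReal.ofReal (K * ∑ i ∈ F.filter (fun i => q i / 2 ^ l = b), ‖c i‖ ^ 2) :=
          Finset.sum_le_sum (fun b _ => hblk l b)
      _ = ENNReal.ofReal (K * S) := by
          rw [← ENNReal.ofReal_sum_of_nonneg]
          · rw [← Finset.mul_sum, hlev l]
          · intro b _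
            exact mul_nonneg hK (Finset.sum_nonneg (fun _ _ => by positivity))
  calc ∫⁻ ω, (⨆ x : ℕ, ENNReal.ofReal
        (‖∑ i ∈ F.filter (fun i => q i < x), c i * g i ω‖ ^ 2)) ∂μ
      ≤ ∫⁻ ω, ENNReal.ofReal ((L : ℝ) + 1) * ∑ l ∈ Finset.range (L + 1),
          ∑ b ∈ Finset.range (2 ^ L),
            ENNReal.ofReal (‖bs F (fun i => c i * g i ω) q l b‖ ^ 2) ∂μ := by
        apply lintegral_mono
        intro ω
        apply iSup_le
        intro x
        have h1 := pointwise F (fun i => c i * g i ω) q x L hq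
        refine le_trans (ENNReal.ofReal_le_ofReal h1) (le_of_eq ?_)
        rw [ENNReal.ofReal_mul (by positivity), ENNReal.ofReal_sum_of_nonneg]
        · congr 1
          apply Finset.sum_congr rfl
          intro l _
          unfold lv
          rw [ENNReal.ofReal_sum_of_nonneg]
          intro b _
          positivity
        · intro l _
          exact Finset.sum_nonneg (fun _ _ => by positivity)
    _ = ENNReal.ofReal ((L : ℝ) + 1) * ∑ l ∈ Finset.range (L + 1), ∫⁻ ω,
          ∑ b ∈ Finset.range (2 ^ L),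
            ENNReal.ofReal (‖bs F (fun i => c i * g i ω) q l b‖ ^ 2) ∂μ := by
        rw [lintegral_const_mul, lintegral_finsetSum]
        · intro l _
          exact Finset.measurable_sum _ (fun b _ => hmb l b)
        · apply Finset.measurable_sum
          intro l _
          exact Finset.measurable_sum _ (fun b _ => hmb l b)
    _ ≤ ENNReal.ofReal ((L : ℝ) + 1) * ∑ l ∈ Finset.range (L + 1), ENNReal.ofReal (K * S) := by
        gcongr with l _
        exact hlI l
    _ = ENNReal.ofReal (((L : ℝ) + 1) ^ 2 * K * S) := by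
        rw [Finset.sum_const, Finset.card_range, nsmul_eq_mul]
        have h1 : ((L + 1 : ℕ) : ℝ≥0∞) = ENNReal.ofReal ((L : ℝ) + 1) := by
          rw [← Nat.cast_succ, ENNReal.ofReal_natCast]
        rw [h1, ← mul_assoc, ← ENNReal.ofReal_mul (by positivity),
          ← ENNReal.ofReal_mul (by positivity)]
        congr 1
        ring

end

theorem RM : Pool.Agent.H681.MD.S_RM := by
  intro Ω _ μ ι F g q L K hg hq hK hyp c
  exact rm_core μ F g q L K hg hq hK hyp c

end Pool.Agent.H663.MD
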